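import Mathlib
import Pool.Agent.Q47.TV.Et
import Pool.Agent.Helper58K9.ET.Defs

/-!
# Quotients of toroidal pairs by finite groups: definitions
-/

set_option autoImplicit false
set_option linter.unusedSectionVars false

namespace Pool.Agent.W2helper37.GQ

open Pool.Agent.H436R3.Fol Pool.Agent.H436R3.KT Pool.Agent.W497.Mld Pool.Agent.TH165.ACC
  Q47.QM Q47.TV
open Pool.Agent.Helper58K9.ET (Etale)

section cover

/-- A normal affine variety `X` with function field `L` such that `Z` is the quotient of `X` by the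
group `L ≃ₐ[F] L`: the group acts on the coordinate ring `R` of `X`, and the coordinate ring of `Z`
consists of the elements of `R` in the function field `F` of `Z`. The basis `T` of the rational
vector fields of `X` extends the one of `Z`: the canonical divisor of `X` is the divisor of the
pull-back of the rational form on `Z`. -/
structure Cover {F : Type} [Field F] [Algebra ℂ F] (Z : AffVar F) (L : Type) [Field L]
    [Algebra ℂ L] [Algebra F L] where
  R : Subalgebra ℂ L
  fg : R.FG
  frac : ∀ f : L, ∃ a b : L, a ∈ R ∧ b ∈ R ∧ b ≠ 0 ∧ f * b = a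
  normal : ∀ f : L, IsIntegral R f → f ∈ R
  stab : ∀ σ : L ≃ₐ[F] L, ∀ f ∈ R, σ f ∈ R
  inv : ∀ f : F, f ∈ Z.R ↔ algebraMap F L f ∈ R
  T : Foliation L Z.d
  top : T.space = ⊤
  ext : ∀ i f, T.D i (algebraMap F L f) = algebraMap F L (Z.T.D i f)

variable {F L : Type} [Field F] [Algebra ℂ F] [Field L] [Algebra ℂ L] [Algebra F L]

/-- The variety `X` upstairs. -/
def Cover.X {Z : AffVar F} (C : Cover Z L) : AffVar L where
  R := C.R
  fg := C.fg
  frac := C.frac
  d := Z.d
  T := C.T
  top := C.top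

variable [IsScalarTower ℂ F L] {Z : AffVar F} (C : Cover Z L)

/-- The inclusion of the coordinate rings. -/
def Cover.inc : Z.R →ₐ[ℂ] C.X.R :=
  ((IsScalarTower.toAlgHom ℂ F L).comp Z.R.val).codRestrict C.R fun f => (C.inv f).1 f.2

theorem Cover.inc_apply (f : Z.R) : ((C.inc f : C.X.R) : L) = algebraMap F L (f : F) := rfl

/-- The image in `Z` of the closed point `x` of `X`. -/
def Cover.im (x : Pt C.X) : Pt Z := x.comp C.inc

/-- The stabiliser of the closed point `x` of `X` in the Galois group. -/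
def Cover.St (x : Pt C.X) : Subgroup (L ≃ₐ[ℂ] L) where
  carrier := {σ | (∀ f : F, σ (algebraMap F L f) = algebraMap F L f) ∧ FixesPt x σ}
  one_mem' := ⟨fun f => rfl, fun f f' h => by
    have : f = f' := Subtype.ext h.symm
    rw [this]⟩
  mul_mem' := by
    rintro σ τ ⟨h1, h2⟩ ⟨h3, h4⟩
    refine ⟨fun f => by rw [AlgEquiv.mul_apply, h3, h1], fun f f' h => ?_⟩
    let τ' : L ≃ₐ[F] L := AlgEquiv.ofRingEquiv (f := τ.toRingEquiv) h3
    have h5 : τ (f : L) ∈ C.R := C.stab τ' f f.2
    rw [AlgEquiv.mul_apply] at h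
    exact (h4 f ⟨τ f, h5⟩ rfl).trans (h2 ⟨τ f, h5⟩ f' h)
  inv_mem' := by
    rintro σ ⟨h1, h2⟩
    have h3 : ∀ f : F, σ⁻¹ (algebraMap F L f) = algebraMap F L f := fun f => by
      apply σ.injective
      rw [h1]
      exact σ.apply_symm_apply _
    refine ⟨h3, fun f f' h => ?_⟩
    refine (h2 f' f ?_).symm
    rw [h]
    exact (σ.apply_symm_apply _).symm

theorem Cover.mem_St {x : Pt C.X} {σ : L ≃ₐ[ℂ] L} : σ ∈ C.St x ↔
    (∀ f : F, σ (algebraMap F L f) = algebraMap F L f) ∧ FixesPt x σ := Iff.rfl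

/-- the pull-back of the local equation of `K_Z + B_Z` is the local equation of `K_X + B_X`: the orders
agree at all divisors over `x`. -/
def Cover.IsPull {x : Pt C.X} {BX : EffDiv C.X} (eX : LocEq BX x) {BZ : EffDiv Z}
    (eZ : LocEq BZ (C.im x)) : Prop :=
  ∀ w : DVal L, IsOverGerm x w → ∑ i, eX.ρ i * (w.ord (eX.g i) : ℝ) =
    ∑ i, eZ.ρ i * (w.ord (algebraMap F L (eZ.g i)) : ℝ)

end cover

/-- An étale toric chart at the closed point `x` of `X` for the automorphism `σ` of the germ: an affine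
toric variety `g` of dimension `n` with a torus invariant boundary `B'` with coefficients in `Γ`, a
closed point `y` of it and a monomial automorphism `τ` of it; an affine variety `U` with étale
morphisms to `X` and to `g` (`Etale`: the coordinate ring of `U` is a standard étale algebra), a closed
point `u` of `U` over `x` and over `y`, an automorphism `ρ` of `U` which fixes `u` and lies over `σ` and
over `τ`, such that the pull-backs of `K_X + B` and of `K + B'` to `U` agree at `u`: a divisor over `u`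
has the same log discrepancy with respect to both pairs. -/
structure EtChart (n : ℕ) (K : Type) [Field K] [Algebra ℂ K]
    [Algebra (MvPolynomial (Fin n) ℂ) K] [IsFractionRing (MvPolynomial (Fin n) ℂ) K]
    [IsScalarTower ℂ (MvPolynomial (Fin n) ℂ) K] (Γ : Set ℝ) {L : Type} [Field L] [Algebra ℂ L]
    {X : AffVar L} {B : EffDiv X} {x : Pt X} (e : LocEq B x) (σ : L ≃ₐ[ℂ] L) where
  g : TorAff n K
  B' : EffDiv g.X
  coef : CoeffIn B' Γ
  /-- the prime divisors which meet the torus are not components of `B'` -/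
  htor : ∀ v : DVal K, (∀ i : Fin n, v.ord (cv K i) = 0) → B'.mult v = 0
  y : Pt g.X
  e' : LocEq B' y
  τ : K ≃ₐ[ℂ] K
  aut : ∀ c, τ c ∈ g.X.R ↔ c ∈ g.X.R
  mono : IsMono n τ
  Ω : Type
  [fΩ : Field Ω]
  [aΩ : Algebra ℂ Ω]
  [aL : Algebra L Ω]
  [sL : IsScalarTower ℂ L Ω]
  [aK : Algebra K Ω]
  [sK : IsScalarTower ℂ K Ω]
  U : AffVar Ω
  etX : Etale X U.R
  etY : Etale g.X U.R
  u : Pt U
  ux : etX.im u = x
  uy : etY.im u = y
  ρ : Ω ≃ₐ[ℂ] Ω
  autU : ∀ f, ρ f ∈ U.R ↔ f ∈ U.R
  fixU : FixesPt u ρ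
  comX : ∀ f : L, ρ (algebraMap L Ω f) = algebraMap L Ω (σ f)
  comY : ∀ f : K, ρ (algebraMap K Ω f) = algebraMap K Ω (τ f)
  disc : ∀ (w : DVal Ω) (v : DVal L) (v' : DVal K), IsOverGerm u w →
    (∀ f : L, f ≠ 0 → w.ord (algebraMap L Ω f) = v.ord f) →
    (∀ f : K, f ≠ 0 → w.ord (algebraMap K Ω f) = v'.ord f) →
    ∀ b, IsLogDisc e v b ↔ IsLogDisc e' v' b

attribute [instance] EtChart.fΩ EtChart.aΩ EtChart.aL EtChart.sL EtChart.aK EtChart.sK

/-- The pair with the local equation `eY` at the closed point `y` of `Y` is étale locally a quotient of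
a toroidal pair of dimension `n` by a finite group: there are an étale neighbourhood `Z → Y` of `y`, a
normal affine variety `X` with a finite group `G` such that `X / G = Z` (`Cover`), a closed point `x` of
`X` over `y` and an effective divisor `BX` on `X` such that `K_X + BX` is the pull-back of `K_Y + B_Y`
at `x` (via `K_Z + B_Z`), and for every `σ` in the stabiliser of `x` there is an étale toric chart of
`(X, BX)` at `x` for `σ`, with coefficients in `Γ`. -/
def IsToroidalQuotient (n : ℕ) (Γ : Set ℝ) {M : Type} [Field M] [Algebra ℂ M] {Y : AffVar M}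
    {BY : EffDiv Y} {y : Pt Y} (eY : LocEq BY y) : Prop :=
  ∃ (F : Type) (_ : Field F) (_ : Algebra ℂ F) (_ : Algebra M F) (_ : IsScalarTower ℂ M F)
    (L : Type) (_ : Field L) (_ : Algebra ℂ L) (_ : Algebra F L) (_ : IsScalarTower ℂ F L)
    (_ : FiniteDimensional F L) (_ : IsGalois F L)
    (Z : AffVar F) (h : Etale Y Z.R) (C : Cover Z L) (x : Pt C.X)
    (BZ : EffDiv Z) (eZ : LocEq BZ (C.im x)) (BX : EffDiv C.X) (eX : LocEq BX x),
    h.im (C.im x) = y ∧
    (∀ (v : DVal F) (v' : DVal M), IsOverGerm (C.im x) v →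
      (∀ f : M, f ≠ 0 → v.ord (algebraMap M F f) = v'.ord f) →
      ∀ b, IsLogDisc eZ v b ↔ IsLogDisc eY v' b) ∧
    C.IsPull eX eZ ∧
    ∀ σ ∈ C.St x, Nonempty (EtChart n (FractionRing (MvPolynomial (Fin n) ℂ)) Γ eX σ)

/-- The minimal log discrepancies `m ≥ 0` of the pairs and closed points which are étale locally
quotients of toroidal pairs of dimension `n`, with coefficients in `Γ`, by finite groups. -/
def quotMlds (n : ℕ) (Γ : Set ℝ) : Set ℝ :=
  {m | 0 ≤ m ∧ ∃ (M : Type) (_ : Field M) (_ : Algebra ℂ M) (Y : AffVar M) (BY : EffDiv Y)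
    (y : Pt Y) (eY : LocEq BY y), IsToroidalQuotient n Γ eY ∧ Pool.Agent.W497.Mld.IsMld eY m}

end Pool.Agent.W2helper37.GQ
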