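import Mathlib
import Pool.Agent.TH969.C8_EXT
import Pool.Agent.Q47.QM.Iner

/-!
# The ramification index of a divisor in a Galois extension is the order of the inertia group
-/

set_option autoImplicit false
set_option linter.unusedSectionVars false

namespace Pool.Agent.W2helper37.GQ

open Pool.Agent.H436R3.Fol Pool.Agent.TH969.C8_EXT Q47.QM IsDedekindDomain

/-- a valuation ring contained in another one: the orders agree -/
theorem ord_eq_of_reg {K : Type} [Field K] [Algebra ℂ K] {v w : DVal K}
    (h : ∀ f, v.Reg f → w.Reg f) {f : K} (hf : f ≠ 0) : v.ord f = w.ord f := by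
  have h0 : ∀ g : K, g ≠ 0 → v.ord g = 0 → w.ord g = 0 := by
    intro g hg hv
    have h1 := w.ord_nonneg hg (h g (Or.inr hv.ge))
    have h2 := w.ord_nonneg (inv_ne_zero hg) (h g⁻¹ (Or.inr (by rw [v.ord_inv hg, hv]; simp)))
    rw [w.ord_inv hg] at h2
    omega
  obtain ⟨π, hπ, hπ1⟩ := v.surj
  have h1 : ∀ g : K, g ≠ 0 → w.ord g = v.ord g * w.ord π := by
    intro g hg
    have hz := zpow_ne_zero (v.ord g) hπ
    have h2 := h0 (g / π ^ v.ord g) (div_ne_zero hg hz)
      (by rw [v.ord_div hg hz, v.ord_zpow hπ, hπ1]; ring)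
    rw [w.ord_div hg hz, w.ord_zpow hπ] at h2
    linarith
  obtain ⟨ρ, hρ, hρ1⟩ := w.surj
  have h2 := h1 ρ hρ
  rw [hρ1] at h2
  have h3 := w.ord_nonneg hπ (h π (Or.inr (by omega)))
  have h4 : w.ord π = 1 := by
    have h5 : w.ord π ∣ 1 := ⟨v.ord ρ, by rw [h2]; ring⟩
    exact Int.eq_one_of_dvd_one h3 h5
  rw [h1 f hf, h4, mul_one]

/-- the valuation of a prime of a Dedekind domain contained in the valuation ring -/
theorem ord_of_prime {K : Type} [Field K] [Algebra ℂ K] (v : DVal K) {B : Type} [CommRing B]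
    [IsDedekindDomain B] [Algebra B K] [IsFractionRing B K] (Q : HeightOneSpectrum B)
    (hC : ∀ c : ℂ, ∃ b : B, algebraMap B K b = algebraMap ℂ K c)
    (hreg : ∀ b : B, v.Reg (algebraMap B K b))
    (hpos : ∀ b : B, v.Pos (algebraMap B K b) → b ∈ Q.asIdeal) {f : K} (hf : f ≠ 0) :
    -WithZero.log (Q.valuation K f) = v.ord f := by
  have hC' : ∀ c : ℂ, Q.valuation K (algebraMap ℂ K c) ≤ 1 := by
    intro c
    obtain ⟨b, hb⟩ := hC c
    rw [← hb]
    exact Q.valuation_le_one _
  have h1 : (ofPrime Q hC').ord f = v.ord f := by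
    refine ord_eq_of_reg (fun g hg => ?_) hf
    rcases hg with hg | hg
    · exact Or.inl hg
    by_cases hg0 : g = 0
    · exact Or.inl hg0
    have h2 : Q.valuation K g ≤ 1 := by
      change 0 ≤ -WithZero.log (Q.valuation K g) at hg
      have h3 := (WithZero.log_le_log (val_ne Q hg0) one_ne_zero).1
        (by rw [WithZero.log_one]; omega)
      exact h3
    obtain ⟨a, d, had⟩ := Q.exists_primeCompl_mul_eq_of_integer g h2
    have hd : ¬ v.Pos (algebraMap B K d) := fun h3 => d.2 (hpos _ h3)
    have hd0 : algebraMap B K d ≠ 0 := fun h3 => hd (Or.inl h3)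
    have hd1 : v.ord (algebraMap B K d) = 0 := by
      have h3 := v.ord_nonneg hd0 (hreg _)
      have h4 : ¬ 0 < v.ord (algebraMap B K d) := fun h4 => hd (Or.inr h4)
      omega
    have ha := hreg a
    rw [← had] at ha
    rcases ha with ha | ha
    · exact absurd ha (mul_ne_zero hg0 hd0)
    · right
      rwa [v.map_mul _ _ hg0 hd0, hd1, add_zero] at ha
  exact h1

variable {F L : Type} [Field F] [Algebra ℂ F] [Field L] [Algebra ℂ L] [Algebra F L]
  [IsScalarTower ℂ F L]

theorem ram_eq [FiniteDimensional F L] [IsGalois F L] (w : DVal L) (v : DVal F) (e : ℕ)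
    (he : 0 < e) (h : ∀ f : F, f ≠ 0 → w.ord (algebraMap F L f) = e * v.ord f) :
    Nat.card {σ : L ≃ₐ[F] L // ∀ f, w.Reg f → w.Pos (σ f - f)} = e := by
  classical
  have hdvr : IsDiscreteValuationRing v.O := dvr v
  have hfr : IsFractionRing v.O F := frac v
  have hchar : CharZero F := charZero_of_injective_algebraMap (algebraMap ℂ F).injective
  let B := integralClosure v.O L
  have hB : IsDedekindDomain B := integralClosure.isDedekindDomain v.O F (L := L)
  have hBf : IsFractionRing B L := integralClosure.isFractionRing_of_finite_extension F L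
  have hinj : Function.Injective (algebraMap v.O B) := by
    have h1 : Function.Injective (algebraMap v.O L) := by
      rw [IsScalarTower.algebraMap_eq v.O F L]
      exact (algebraMap F L).injective.comp Subtype.val_injective
    have h2 : (algebraMap v.O L : v.O → L) = (algebraMap B L) ∘ (algebraMap v.O B) := by
      funext x
      exact IsScalarTower.algebraMap_apply v.O B L x
    rw [h2] at h1
    exact Function.Injective.of_comp h1
  have hfin : Module.Finite v.O B := IsIntegralClosure.finite v.O F L B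
  have hsc : SMulCommClass (L ≃ₐ[F] L) v.O L := ⟨fun g r x => by
    rw [Algebra.smul_def, Algebra.smul_def, IsScalarTower.algebraMap_apply v.O F L]
    change g (algebraMap F L _ * x) = algebraMap F L _ * g x
    rw [map_mul, AlgEquiv.commutes]⟩
  have hgal : IsGaloisGroup (L ≃ₐ[F] L) v.O B := by
    exact IsGaloisGroup.of_isFractionRing (L ≃ₐ[F] L) v.O B F L
  have hregv : ∀ x : v.O, w.Reg (algebraMap F L (x : F)) := by
    intro x
    by_cases hx : (x : F) = 0
    · left; rw [hx, map_zero]
    · right
      rw [h _ hx]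
      exact mul_nonneg (by omega) (v.ord_nonneg hx x.2)
  have hregB : ∀ b : B, w.Reg (b : L) := by
    intro b
    have h1 : IsIntegral w.O (b : L) := by
      obtain ⟨q, hq, hq0⟩ := b.2
      let φ : v.O →+* w.O :=
        { toFun := fun x => ⟨algebraMap F L (x : F), hregv x⟩
          map_one' := Subtype.ext (map_one _)
          map_mul' := fun x y => Subtype.ext (map_mul _ _ _)
          map_zero' := Subtype.ext (map_zero _)
          map_add' := fun x y => Subtype.ext (map_add _ _ _) }
      refine ⟨q.map φ, hq.map φ, ?_⟩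
      rw [Polynomial.eval₂_map]
      exact hq0
    have hdw : IsDiscreteValuationRing w.O := dvr w
    have hfw : IsFractionRing w.O L := frac w
    obtain ⟨y, hy⟩ := (IsIntegrallyClosed.isIntegral_iff (R := w.O) (K := L)).1 h1
    rw [← hy]
    exact y.2
  -- the prime ideals
  let P : Ideal B :=
    { carrier := {b | w.Pos (b : L)}
      add_mem' := fun ha hb => w.pos_add ha hb
      zero_mem' := Or.inl rfl
      smul_mem' := fun c b hb => w.pos_mul_left (hregB c) hb }
  have hPmem : ∀ b : B, b ∈ P ↔ w.Pos (b : L) := fun _ => Iff.rfl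
  have hP1 : P ≠ ⊤ := by
    intro h1
    have h2 : (1 : B) ∈ P := by rw [h1]; trivial
    rw [hPmem] at h2
    exact not_pos one_ne_zero w.ord_one h2
  have hPp : P.IsPrime := ⟨hP1, fun {a b} hab => pos_of_mul (hregB a) (hregB b) hab⟩
  let p : Ideal v.O := P.under v.O
  have hlies : P.LiesOver p := ⟨rfl⟩
  have hpp : p.IsPrime := inferInstance
  obtain ⟨π, hπ0, hπ1⟩ := v.surj
  let πO : v.O := ⟨π, Or.inr (by omega)⟩
  have hπO : πO ≠ 0 := fun h1 => hπ0 (congrArg Subtype.val h1)
  have hae : ∀ x : v.O, ((algebraMap v.O B x : B) : L) = algebraMap F L (x : F) := fun x => rfl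
  have hπP : algebraMap v.O B πO ∈ P := by
    rw [hPmem, hae]
    right
    change 0 < w.ord (algebraMap F L π)
    rw [h π hπ0, hπ1]
    omega
  have hp0 : p ≠ ⊥ := by
    intro h1
    have h2 : πO ∈ p := hπP
    rw [h1, Ideal.mem_bot] at h2
    exact hπO h2
  have hP0 : P ≠ ⊥ := by
    intro h1
    rw [h1, Ideal.mem_bot] at hπP
    exact hπO (hinj (by rw [hπP, map_zero]))
  have hcO : CharZero p.ResidueField := by
    let φ : ℂ →+* v.O :=
      { toFun := fun c => ⟨algebraMap ℂ F c, v.reg_const c⟩
        map_one' := Subtype.ext (map_one _)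
        map_mul' := fun x y => Subtype.ext (map_mul _ _ _)
        map_zero' := Subtype.ext (map_zero _)
        map_add' := fun x y => Subtype.ext (map_add _ _ _) }
    exact charZero_of_injective_ringHom ((algebraMap v.O p.ResidueField).comp φ).injective
  have hfree : Module.Free v.O B := by
    have : Module.IsTorsionFree v.O L := .trans_faithfulSMul v.O F L
    exact IsIntegralClosure.module_free v.O F L B
  have hflat : Module.Flat v.O B := inferInstance
  have hcard : Nat.card (P.inertia (L ≃ₐ[F] L)) = p.ramificationIdx' P := by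
    rw [Ideal.card_inertia_eq_ramificationIdxIn (G := L ≃ₐ[F] L) p P,
      Ideal.ramificationIdxIn_eq_ramificationIdx p P (L ≃ₐ[F] L),
      Ideal.ramificationIdx'_eq_ramificationIdx' p P]
    intro h1
    rw [Ideal.map_eq_bot_iff_of_injective hinj] at h1
    exact hp0 h1
  let Q : HeightOneSpectrum B := ⟨P, hPp, hP0⟩
  let q : HeightOneSpectrum v.O := ⟨p, hpp, hp0⟩
  have hlies' : Q.asIdeal.LiesOver q.asIdeal := hlies
  have h1 : ∀ f : L, f ≠ 0 → -WithZero.log (Q.valuation L f) = w.ord f := fun f hf =>
    ord_of_prime w Q (fun c => ⟨algebraMap v.O B ⟨algebraMap ℂ F c, v.reg_const c⟩, by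
      rw [IsScalarTower.algebraMap_apply ℂ F L]
      rfl⟩) hregB (fun b hb => hb) hf
  have h2 : ∀ f : F, f ≠ 0 → -WithZero.log (q.valuation F f) = v.ord f := fun f hf =>
    ord_of_prime v q (fun c => ⟨⟨algebraMap ℂ F c, v.reg_const c⟩, rfl⟩) (fun b => b.2)
      (fun b hb => by
        change w.Pos (algebraMap F L (b : F))
        by_cases hb0 : (b : F) = 0
        · left
          rw [hb0, map_zero]
        · right
          rw [h _ hb0]
          exact mul_pos (by omega) (hb.resolve_left hb0)) hf
  have h3 := HeightOneSpectrum.valuation_liesOver L q Q π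
  have h4 := h1 _ (ext_ne (Ω := L) hπ0)
  rw [← h3, WithZero.log_pow, h _ hπ0, hπ1] at h4
  have h5 := h2 π hπ0
  rw [hπ1] at h5
  have h6 : (p.ramificationIdx' P : ℤ) = e := by
    have h7 : WithZero.log (q.valuation F π) = -1 := by omega
    rw [h7] at h4
    simpa using h4
  have h7 : p.ramificationIdx' P = e := by exact_mod_cast h6
  rw [← h7, ← hcard]
  refine Nat.card_congr (Equiv.subtypeEquivRight fun σ => ?_)
  constructor
  · intro hσ b
    exact hσ (b : L) (hregB b)
  · intro hσ f hf
    have hσB : ∀ b : B, w.Pos (σ (b : L) - b) := fun b => hσ b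
    by_cases hf0 : f = 0
    · left
      rw [hf0, map_zero, sub_zero]
    have h8 : Q.valuation L f ≤ 1 := by
      have h9 := h1 f hf0
      have h10 := w.ord_nonneg hf0 hf
      exact (WithZero.log_le_log (val_ne Q hf0) one_ne_zero).1 (by rw [WithZero.log_one]; omega)
    obtain ⟨a, d, had⟩ := Q.exists_primeCompl_mul_eq_of_integer f h8
    have hd : ¬ w.Pos ((d : B) : L) := fun h3 => d.2 h3
    have hd0 : ((d : B) : L) ≠ 0 := fun h3 => hd (Or.inl h3)
    have hσd : ¬ w.Pos (σ ((d : B) : L)) := by
      intro h9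
      apply hd
      have h10 := hσB d
      have h11 : ((d : B) : L) = σ ((d : B) : L) - (σ ((d : B) : L) - (d : B)) := by ring
      rw [h11]
      exact pos_sub h9 h10
    have hσr : ∀ b : B, w.Reg (σ (b : L)) := by
      intro b
      have h10 : σ (b : L) = (σ (b : L) - b) + b := by ring
      rw [h10]
      exact w.reg_add (reg_of_pos (hσB b)) (hregB b)
    have h12 : (σ f - f) * (σ ((d : B) : L) * (d : B)) =
        (σ (a : L) - a) * (d : B) - a * (σ ((d : B) : L) - (d : B)) := by
      have h13 : f * (d : B) = (a : L) := had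
      have h14 : σ f * σ ((d : B) : L) = σ (a : L) := by rw [← map_mul, h13]
      rw [← h14, ← h13]
      ring
    have h15 : w.Pos ((σ f - f) * (σ ((d : B) : L) * (d : B))) := by
      rw [h12]
      refine pos_sub ?_ (w.pos_mul_left (hregB a) (hσB d))
      rw [mul_comm]
      exact w.pos_mul_left (hregB d) (hσB a)
    have hu : w.ord (σ ((d : B) : L) * (d : B)) = 0 ∧ σ ((d : B) : L) * (d : B) ≠ 0 := by
      have h16 : σ ((d : B) : L) ≠ 0 := fun h3 => hσd (Or.inl h3)
      have h17 := w.ord_nonneg h16 (hσr d)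
      have h18 := w.ord_nonneg hd0 (hregB d)
      have h19 : ¬ 0 < w.ord (σ ((d : B) : L)) := fun h => hσd (Or.inr h)
      have h20 : ¬ 0 < w.ord ((d : B) : L) := fun h => hd (Or.inr h)
      refine ⟨?_, mul_ne_zero h16 hd0⟩
      rw [w.map_mul _ _ h16 hd0]
      omega
    by_cases hz : σ f - f = 0
    · exact Or.inl hz
    right
    have h21 := h15.resolve_left (mul_ne_zero hz hu.2)
    rwa [w.map_mul _ _ hz hu.2, hu.1, add_zero] at h21

end Pool.Agent.W2helper37.GQ
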