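import Mathlib
import Pool.Agent.Q47.TV.EtAcc
import Pool.Agent.W2helper37.GQ.Ram
import Pool.Agent.Helper58K9.ET.Dens
import Pool.Agent.Helper58K9.ET.Up
import Pool.Agent.Helper58K9.ET.Down

/-!
# Standard étale morphisms have the properties `IsEtale`
-/

set_option autoImplicit false
set_option linter.unusedSectionVars false

namespace Pool.Agent.W2helper37.GQ

open Pool.Agent.H436R3.Fol Pool.Agent.H436R3.KT Pool.Agent.W497.Mld Q47.QM Q47.TV
open Pool.Agent.Helper58K9.ET (Etale OverPt dens frac up down)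
open Polynomial (aeval)

section same

variable {K : Type} [Field K] [Algebra ℂ K]

/-- the same valuation with another value at `0` -/
noncomputable def reset (v : DVal K) (c : ℤ) : DVal K := by
  classical
  exact
  { ord := fun f => if f = 0 then c else v.ord f
    map_mul := fun f g hf hg => by
      rw [if_neg hf, if_neg hg, if_neg (mul_ne_zero hf hg)]
      exact v.map_mul f g hf hg
    map_add := fun f g hf hg hfg => by
      rw [if_neg hf, if_neg hg, if_neg hfg]
      exact v.map_add f g hf hg hfg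
    surj := by
      obtain ⟨f, hf, h⟩ := v.surj
      exact ⟨f, hf, by rw [if_neg hf]; exact h⟩
    const := fun c' hc => by
      have h1 : algebraMap ℂ K c' ≠ 0 := (map_ne_zero_iff _ (algebraMap ℂ K).injective).2 hc
      rw [if_neg h1]
      exact v.const c' hc }

theorem reset_ord (v : DVal K) (c : ℤ) {f : K} (hf : f ≠ 0) : (reset v c).ord f = v.ord f :=
  if_neg hf

theorem reset_zero (v : DVal K) (c : ℤ) : (reset v c).ord 0 = c := if_pos rfl

theorem same_pos {v w : DVal K} (h : SameDiv v w) (f : K) : v.Pos f ↔ w.Pos f := by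
  by_cases hf : f = 0
  · exact ⟨fun _ => Or.inl hf, fun _ => Or.inl hf⟩
  · unfold DVal.Pos
    rw [h f hf]

theorem same_reg {v w : DVal K} (h : SameDiv v w) (f : K) : v.Reg f ↔ w.Reg f := by
  by_cases hf : f = 0
  · exact ⟨fun _ => Or.inl hf, fun _ => Or.inl hf⟩
  · unfold DVal.Reg
    rw [h f hf]

theorem same_symm {v w : DVal K} (h : SameDiv v w) : SameDiv w v := fun f hf => (h f hf).symm

theorem same_over {X : AffVar K} {x : Pt X} {v w : DVal K} (h : SameDiv v w)
    (hv : IsOverGerm x v) : IsOverGerm x w := by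
  obtain ⟨⟨S, hS, hXS, h1, h2⟩, h3⟩ := hv
  refine ⟨⟨S, hS, hXS, fun f hf => (same_reg h f).1 (h1 f hf), fun f hf => ?_⟩, fun f => ?_⟩
  · obtain ⟨a, b, ha, hb, hb0, hob, hab⟩ := h2 f ((same_reg h f).2 hf)
    exact ⟨a, b, ha, hb, hb0, by rw [← h b hb0]; exact hob, hab⟩
  · rw [← same_pos h]
    exact h3 f

theorem reset_same (v : DVal K) (c : ℤ) : SameDiv v (reset v c) := fun _ hf =>
  (reset_ord v c hf).symm

end same

section ev

variable {K Ω : Type} [Field K] [Field Ω] [Algebra ℂ K] [Algebra ℂ Ω] [Algebra K Ω]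
  [IsScalarTower ℂ K Ω]

/-- evaluation at `t` of the polynomials with coefficients in the valuation ring -/
noncomputable def ev (v : DVal K) (t : Ω) : Polynomial v.O →+* Ω :=
  Polynomial.eval₂RingHom ((algebraMap K Ω).comp v.O.subtype) t

variable {v : DVal K} {w : DVal Ω} (hwv : ∀ f : K, f ≠ 0 → w.ord (algebraMap K Ω f) = v.ord f)

include hwv

theorem res_reg (f : K) : w.Reg (algebraMap K Ω f) ↔ v.Reg f := by
  by_cases hf : f = 0
  · rw [hf, map_zero]
    exact ⟨fun _ => Or.inl rfl, fun _ => Or.inl rfl⟩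
  · have h1 : algebraMap K Ω f ≠ 0 := (map_ne_zero _).2 hf
    unfold DVal.Reg
    rw [hwv f hf]
    simp [hf, h1]

theorem res_pos (f : K) : w.Pos (algebraMap K Ω f) ↔ v.Pos f := by
  by_cases hf : f = 0
  · rw [hf, map_zero]
    exact ⟨fun _ => Or.inl rfl, fun _ => Or.inl rfl⟩
  · have h1 : algebraMap K Ω f ≠ 0 := (map_ne_zero _).2 hf
    unfold DVal.Pos
    rw [hwv f hf]
    simp [hf, h1]

theorem ev_reg {t : Ω} (ht : w.Reg t) (A : Polynomial v.O) : w.Reg (ev v t A) := by
  have h : ev v t A ∈ w.O := by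
    rw [ev, Polynomial.coe_eval₂RingHom, Polynomial.eval₂_eq_sum, Polynomial.sum]
    refine Subring.sum_mem _ fun i _ => Subring.mul_mem _ ?_ (Subring.pow_mem _ ht _)
    exact (res_reg hwv _).2 (A.coeff i).2
  exact h

theorem ev_pos {t : Ω} (ht : w.Reg t) {c : ℂ} (htc : w.Pos (t - algebraMap ℂ Ω c))
    (A : Polynomial v.O) :
    w.Pos (ev v t A) ↔ v.Pos ((A.eval ⟨algebraMap ℂ K c, v.reg_const c⟩ : v.O) : K) := by
  set cO : v.O := ⟨algebraMap ℂ K c, v.reg_const c⟩ with hcO
  have h1 : A = (Polynomial.X - Polynomial.C cO) * (A /ₘ (Polynomial.X - Polynomial.C cO)) +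
      Polynomial.C (A.eval cO) := by
    have h := Polynomial.modByMonic_add_div A (Polynomial.X - Polynomial.C cO)
    rw [Polynomial.modByMonic_X_sub_C_eq_C_eval] at h
    rw [add_comm]
    exact h.symm
  have h2 : ev v t A = (t - algebraMap ℂ Ω c) *
      ev v t (A /ₘ (Polynomial.X - Polynomial.C cO)) + algebraMap K Ω ((A.eval cO : v.O) : K) := by
    have h := congrArg (ev v t) h1
    rw [map_add, map_mul, map_sub] at h
    rw [h]
    simp only [ev, Polynomial.coe_eval₂RingHom, Polynomial.eval₂_X, Polynomial.eval₂_C,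
      RingHom.comp_apply]
    rw [show v.O.subtype cO = algebraMap ℂ K c from rfl, ← IsScalarTower.algebraMap_apply ℂ K Ω]
    rfl
  have h3 : w.Pos ((t - algebraMap ℂ Ω c) * ev v t (A /ₘ (Polynomial.X - Polynomial.C cO))) := by
    rw [mul_comm]
    exact w.pos_mul_left (ev_reg hwv ht _) htc
  rw [← res_pos hwv]
  constructor
  · intro h4
    have h5 : algebraMap K Ω ((A.eval cO : v.O) : K) = ev v t A - (t - algebraMap ℂ Ω c) *
      ev v t (A /ₘ (Polynomial.X - Polynomial.C cO)) := by rw [h2]; ring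
    rw [h5]
    exact pos_sub h4 h3
  · intro h4
    rw [h2]
    exact w.pos_add h3 h4

end ev

section etale

variable {K Ω : Type} [Field K] [Field Ω] [Algebra ℂ K] [Algebra ℂ Ω] [Algebra K Ω]
  [IsScalarTower ℂ K Ω]

theorem over_reg {U : AffVar Ω} {u : Pt U} {w : DVal Ω} (hw : IsOverGerm u w) (f : U.R) :
    w.Reg (f : Ω) := by
  obtain ⟨⟨S, -, hRS, hSv⟩, -⟩ := hw
  exact hSv.1 _ (hRS f.2)

/-- a divisor over a point of an étale variety is determined by its restriction -/
theorem etale_uniq {X : AffVar K} {U : AffVar Ω} (h : Etale X U.R) {u : Pt U}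
    {w w' : DVal Ω} {v : DVal K} (hw : IsOverGerm u w) (hw' : IsOverGerm u w')
    (hwv : ∀ f : K, f ≠ 0 → w.ord (algebraMap K Ω f) = v.ord f)
    (hwv' : ∀ f : K, f ≠ 0 → w'.ord (algebraMap K Ω f) = v.ord f) {f : Ω} (hf : w.Reg f) :
    w'.Reg f := by
  have htU : h.t ∈ U.R := Pool.Agent.Helper58K9.ET.UpL.t_mem h
  set c : ℂ := u ⟨h.t, htU⟩ with hc
  have htc : ∀ w : DVal Ω, IsOverGerm u w → w.Pos (h.t - algebraMap ℂ Ω c) := by
    intro w hw
    refine (hw.2 (⟨h.t, htU⟩ - algebraMap ℂ U.R c)).2 ?_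
    rw [map_sub, AlgHom.commutes, ← hc]
    exact sub_self c
  obtain ⟨A, B, hA, hB, hB0, hBo, hfB⟩ := frac h u w hw.2 (over_reg hw) f hf
  have hlift : ∀ A : Polynomial K, (∀ i, w.Reg (algebraMap K Ω (A.coeff i))) →
      ∃ A' : Polynomial v.O, ev v h.t A' = aeval h.t A := by
    intro A hA
    have hsub : (↑A.coeffs : Set K) ⊆ (v.O : Set K) := by
      intro a ha
      obtain ⟨k, -, rfl⟩ := Polynomial.mem_coeffs_iff.1 ha
      exact (res_reg hwv _).1 (hA k)
    refine ⟨A.toSubring v.O hsub, ?_⟩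
    rw [ev, Polynomial.coe_eval₂RingHom, ← Polynomial.eval₂_map, Polynomial.map_toSubring,
      Polynomial.aeval_def]
  obtain ⟨A', hA'⟩ := hlift A hA
  obtain ⟨B', hB'⟩ := hlift B hB
  have ht : w.Reg h.t := over_reg hw ⟨h.t, htU⟩
  have ht' : w'.Reg h.t := over_reg hw' ⟨h.t, htU⟩
  have h1 : ¬ w'.Pos (aeval h.t B) := by
    rw [← hB', ev_pos hwv' ht' (htc w' hw'), ← ev_pos hwv ht (htc w hw), hB']
    exact not_pos hB0 hBo
  have h2 : w'.Reg (aeval h.t B) := by rw [← hB']; exact ev_reg hwv' ht' _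
  have h3 : w'.Reg (aeval h.t A) := by rw [← hA']; exact ev_reg hwv' ht' _
  by_cases hf0 : f = 0
  · exact Or.inl hf0
  right
  have h4 : w'.ord (aeval h.t B) = 0 := by
    have h5 := h2.resolve_left hB0
    have h6 : ¬ 0 < w'.ord (aeval h.t B) := fun h6 => h1 (Or.inr h6)
    omega
  rw [← hfB] at h3
  have h5 := h3.resolve_left (mul_ne_zero hf0 hB0)
  rwa [w'.map_mul _ _ hf0 hB0, h4, add_zero] at h5

/-- **Étale morphisms** have the properties which are used for the charts. -/
theorem isEtale_of {X : AffVar K} {U : AffVar Ω} (h : Etale X U.R) (u : Pt U) :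
    IsEtale (IsScalarTower.toAlgHom ℂ K Ω) (h.im u) u where
  map f := ⟨h.inc f, rfl, rfl⟩
  restr w hw := by
    obtain ⟨v, hv, hwv⟩ := down dens frac h u w hw
    refine ⟨reset v (w.ord 0), same_over (reset_same _ _) hv, fun f => ?_⟩
    by_cases hf : f = 0
    · rw [hf, reset_zero, map_zero]
    · rw [reset_ord _ _ hf]
      exact (hwv f hf).symm
  lift v hv := by
    obtain ⟨w, hw, hwv⟩ := up h u v hv
    have hw1 : IsOverGerm u w := hw
    refine ⟨reset w (v.ord 0), same_over (reset_same _ _) hw1, fun f => ?_⟩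
    by_cases hf : f = 0
    · rw [hf, map_zero, reset_zero]
    · have h1 : algebraMap K Ω f ≠ 0 := (map_ne_zero _).2 hf
      exact (hwv f hf).symm.trans (reset_ord _ _ h1).symm
  uniq w w' v hw hw' hv hv' f hf :=
    ord_eq_of_reg (fun g hg => etale_uniq h hw hw' (fun f _ => (hv f).symm)
      (fun f _ => (hv' f).symm) hg) hf
  resid w hw f hf := by
    by_cases hf0 : f = 0
    · exact ⟨0, by rw [hf0, map_zero, sub_self]; exact pos_zero⟩
    obtain ⟨g, hg0, hg⟩ := dens h u w hw.2 (over_reg hw) f hf0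
    have hgΩ : algebraMap K Ω g ≠ 0 := (map_ne_zero _).2 hg0
    obtain ⟨h1, h2⟩ := Pool.Agent.Helper58K9.ET.DensL.one_pos_ne w hg
    have h3 : w.ord (algebraMap K Ω g) = w.ord f := by
      rw [w.ord_div hf0 hgΩ] at h2
      omega
    refine ⟨g, ?_⟩
    have h4 : f - algebraMap K Ω g = algebraMap K Ω g * (f / algebraMap K Ω g - 1) := by
      field_simp
    change w.Pos (f - algebraMap K Ω g)
    rw [h4]
    refine w.pos_mul_left (Or.inr ?_) hg
    rw [h3]
    exact w.ord_nonneg hf0 hf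

end etale

end Pool.Agent.W2helper37.GQ
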