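import Mathlib
import Pool.Agent.Helper81_gap.Cov2
import Pool.Agent.W2helper37.GQ.Ram

/-!
# Canonical orders in finite extensions (the Riemann–Hurwitz formula for divisors)
-/

set_option autoImplicit false
set_option linter.unusedSectionVars false

namespace Pool.Agent.W2helper37.GQ

open Pool.Agent.H436R3.Fol Pool.Agent.TH969.C8_EXT Q47.QM Pool.Agent.Helper81_gap MvPolynomial
  Pool.Agent.W497.Mld

section frame

variable {K : Type} [Field K] [Algebra ℂ K]

/-- The canonical order from a frame, with the dual derivations. -/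
theorem can_eq {m : ℕ} {X : NormalAffine K}
    (htr : Algebra.trdeg ℂ K = ((m + 1 : ℕ) : Cardinal)) {v : DVal K} (hv : IsDivisorOver X v)
    {g : K} (hg0 : g ≠ 0) (hg : v.ord g = 1) {u : Fin m → K} (hu : ∀ i, v.Reg (u i))
    (hres : ∀ q : MvPolynomial (Fin m) ℂ, v.Pos (aeval u q) → q = 0)
    (G : Foliation K (m + 1)) :
    ∃ J : Matrix (Fin (m + 1)) (Fin (m + 1)) K,
      (∀ j k, J j k = G.D j ((Fin.cons g u : Fin (m + 1) → K) k)) ∧ J.det ≠ 0 ∧
      IsCanOrd G v (-v.ord J.det) ∧
      ∀ i, Preserves v (∑ j, J⁻¹ i j • G.D j) := by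
  classical
  have hg' : 0 < v.ord g := by omega
  set t : Fin (m + 1) → K := Fin.cons g u with ht
  have hbas : IsTranscendenceBasis ℂ t := cons_basis htr hg0 hg' hu hres
  have hchar : CharZero K := charZero_of_injective_algebraMap (algebraMap ℂ K).injective
  set J : Matrix (Fin (m + 1)) (Fin (m + 1)) K := Matrix.of fun j k => G.D j (t k) with hJdef
  have hJ : J.det ≠ 0 := (can_frame htr hv hg0 hg hu hres G).1
  have hunit : IsUnit J.det := isUnit_iff_ne_zero.2 hJ
  have hWJ : J⁻¹ * J = 1 := Matrix.nonsing_inv_mul J hunit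
  have hpd : ∀ i k, (∑ j, J⁻¹ i j • G.D j) (t k) = if i = k then 1 else 0 := by
    intro i k
    have h1 := congrFun (congrFun hWJ i) k
    rw [Matrix.mul_apply, Matrix.one_apply] at h1
    rw [← h1]
    exact der_sum_apply _ _ _ _
  have hpres : ∀ i, Preserves v (∑ j, J⁻¹ i j • G.D j) := by
    intro i
    obtain ⟨B, hB⟩ := exists_lower X hv (∑ j, J⁻¹ i j • G.D j)
    refine frame_reg htr hg0 hg hu hres hB ?_ fun j => ?_
    · have h1 := hpd i 0
      rw [ht, Fin.cons_zero] at h1
      rw [h1]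
      split_ifs
      · exact v.reg_one
      · exact v.reg_zero
    · have h1 := hpd i j.succ
      rw [ht, Fin.cons_succ] at h1
      rw [h1]
      split_ifs
      · exact v.reg_one
      · exact v.reg_zero
  refine ⟨J, fun _ _ => rfl, hJ, ⟨⟨J⁻¹, ?_, hpres, ?_⟩, ?_⟩, hpres⟩
  · rw [Matrix.det_nonsing_inv, Ring.inverse_eq_inv']
    exact inv_ne_zero hJ
  · rw [Matrix.det_nonsing_inv, Ring.inverse_eq_inv', v.ord_inv hJ]
  · rintro n ⟨A, hA0, hA, rfl⟩
    have h1 : (A * J).det ∈ v.O := by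
      refine Pool.Agent.W497.Mld.det_mem' v.O _ ?_
      intro i k
      rw [DVal.mem_O]
      have h2 : (A * J) i k = (∑ j, A i j • G.D j) (t k) := by
        rw [Matrix.mul_apply]
        exact (der_sum_apply _ _ _ _).symm
      rw [h2]
      exact hA i _ (reg_cons' hg' hu k)
    have h3 : (A * J).det ≠ 0 := by
      rw [Matrix.det_mul]
      exact mul_ne_zero hA0 hJ
    have h4 := v.ord_nonneg h3 h1
    rw [Matrix.det_mul, v.map_mul _ _ hA0 hJ] at h4
    omega

end frame

variable {F L : Type} [Field F] [Algebra ℂ F] [Field L] [Algebra ℂ L] [Algebra F L]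
  [IsScalarTower ℂ F L]

/-- Riemann–Hurwitz: the canonical orders of a divisor below and above. -/
theorem can_cover {m : ℕ} [Algebra.IsAlgebraic F L] {X : NormalAffine F} {Y : NormalAffine L}
    (htr : Algebra.trdeg ℂ F = ((m + 1 : ℕ) : Cardinal)) {T : Foliation F (m + 1)}
    {T' : Foliation L (m + 1)}
    (hT : ∀ i f, T'.D i (algebraMap F L f) = algebraMap F L (T.D i f)) {w : DVal L} {v : DVal F}
    {e : ℕ} (he : 0 < e) (h : ∀ f : F, f ≠ 0 → w.ord (algebraMap F L f) = e * v.ord f)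
    (hv : IsDivisorOver X v) (hw : IsDivisorOver Y w) :
    ∃ n : ℤ, IsCanOrd T v n ∧ IsCanOrd T' w (e * (n + 1) - 1) := by
  classical
  have hcharL : CharZero L := charZero_of_injective_algebraMap (algebraMap ℂ L).injective
  obtain ⟨u, hu, hres⟩ := exists_res_divisor htr hv
  obtain ⟨g, hg0, hg1⟩ := v.surj
  obtain ⟨π, hπ0, hπ1⟩ := w.surj
  have htr' : Algebra.trdeg ℂ L = ((m + 1 : ℕ) : Cardinal) := by rw [trdeg_ext (K := F), htr]
  set u' : Fin m → L := fun i => algebraMap F L (u i) with hu'd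
  have hu' : ∀ i, w.Reg (u' i) := fun i => (above_reg he h _).2 (hu i)
  have hres' : ∀ q : MvPolynomial (Fin m) ℂ, w.Pos (aeval u' q) → q = 0 := by
    intro q hq
    rw [hu'd, aeval_am, above_pos he h] at hq
    exact hres q hq
  obtain ⟨J, hJ, hJ0, hJc, -⟩ := can_eq htr hv hg0 hg1 hu hres T
  obtain ⟨J', hJ', hJ0', hJc', hpres⟩ := can_eq htr' hw hπ0 hπ1 hu' hres' T'
  refine ⟨_, hJc, ?_⟩
  have hunit : IsUnit J'.det := isUnit_iff_ne_zero.2 hJ0'
  have hWJ : J'⁻¹ * J' = 1 := Matrix.nonsing_inv_mul J' hunit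
  have hJW : J' * J'⁻¹ = 1 := Matrix.mul_nonsing_inv J' hunit
  set pd : Fin (m + 1) → Derivation ℂ L L := fun i => ∑ j, J'⁻¹ i j • T'.D j with hpd
  have hpdy : ∀ i k, pd i ((Fin.cons π u' : Fin (m + 1) → L) k) = if i = k then 1 else 0 := by
    intro i k
    have h1 := congrFun (congrFun hWJ i) k
    rw [Matrix.mul_apply, Matrix.one_apply] at h1
    rw [← h1, hpd]
    beta_reduce
    rw [der_sum_apply]
    exact Finset.sum_congr rfl fun j _ => by rw [hJ']
  set z : Fin (m + 1) → L := Fin.cons (algebraMap F L g) u' with hz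
  have hzt : ∀ k, z k = algebraMap F L ((Fin.cons g u : Fin (m + 1) → F) k) := by
    intro k
    refine Fin.cases ?_ (fun k => ?_) k
    · rfl
    · rfl
  set M : Matrix (Fin (m + 1)) (Fin (m + 1)) L := Matrix.of fun i k => pd i (z k) with hM
  have hJM : J' * M = J.map (algebraMap F L) := by
    ext j k
    rw [Matrix.mul_apply, Matrix.map_apply, hJ j k, ← hT, ← hzt]
    have h1 : ∑ i, J' j i * M i k = ∑ l, (∑ i, J' j i * J'⁻¹ i l) * T'.D l (z k) := by
      simp_rw [Finset.sum_mul]
      rw [Finset.sum_comm]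
      refine Finset.sum_congr rfl fun i _ => ?_
      rw [hM, Matrix.of_apply, hpd]
      beta_reduce
      rw [der_sum_apply, Finset.mul_sum]
      exact Finset.sum_congr rfl fun l _ => by ring
    rw [h1]
    have h2 : ∀ l, ∑ i, J' j i * J'⁻¹ i l = if j = l then 1 else 0 := by
      intro l
      rw [← Matrix.mul_apply, hJW, Matrix.one_apply]
    simp_rw [h2, ite_mul, one_mul, zero_mul]
    rw [Finset.sum_ite_eq Finset.univ j fun l => T'.D l (z k), if_pos (Finset.mem_univ _)]
  have hdet : J'.det * M.det = algebraMap F L J.det := by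
    rw [← Matrix.det_mul, hJM, ← RingHom.mapMatrix_apply, ← RingHom.map_det]
  have hMd : M.det = pd 0 (algebraMap F L g) := by
    rw [Matrix.det_of_isLowerTriangular, Fin.prod_univ_succ]
    · have h1 : ∀ i : Fin m, M i.succ i.succ = 1 := by
        intro i
        have h2 := hpdy i.succ i.succ
        rw [if_pos rfl] at h2
        exact h2
      rw [Finset.prod_congr rfl fun i _ => h1 i, Finset.prod_const_one, mul_one]
      rfl
    · intro i k hik
      have hik' : i < k := hik
      obtain ⟨k', rfl⟩ : ∃ k', k = Fin.succ k' := Fin.exists_succ_eq.2 (by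
        rintro rfl
        exact absurd hik' (Fin.not_lt_zero _))  |>.imp fun _ h => h.symm
      have h2 := hpdy i k'.succ
      rw [if_neg hik'.ne] at h2
      exact h2
  obtain ⟨k, rfl⟩ : ∃ k, e = k + 1 := ⟨e - 1, by omega⟩
  have hgL : algebraMap F L g ≠ 0 := am_ne hg0
  have hgo : w.ord (algebraMap F L g) = (k + 1 : ℕ) := by rw [h g hg0, hg1, mul_one]
  have hπk : π ^ (k + 1) ≠ 0 := pow_ne_zero _ hπ0
  set c : L := algebraMap F L g / π ^ (k + 1) with hc
  have hc0 : c ≠ 0 := div_ne_zero hgL hπk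
  have hco : w.ord c = 0 := by
    rw [hc, w.ord_div hgL hπk, w.ord_pow hπ0, hπ1, hgo]
    ring
  have hgc : algebraMap F L g = π ^ (k + 1) * c := by rw [hc, mul_div_cancel₀ _ hπk]
  have hpπ : pd 0 π = 1 := by
    have h1 := hpdy 0 0
    rw [if_pos rfl] at h1
    exact h1
  have hpg : pd 0 (algebraMap F L g) = π ^ k * (π * pd 0 c + ((k + 1 : ℕ) : L) * c) := by
    rw [hgc, Derivation.leibniz, Derivation.leibniz_pow, hpπ, smul_eq_mul, smul_eq_mul,
      smul_eq_mul, nsmul_eq_mul, Nat.add_sub_cancel]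
    ring
  have hk := natCast_ord w (Nat.succ_ne_zero k)
  have hkc : ((k + 1 : ℕ) : L) * c ≠ 0 := mul_ne_zero hk.1 hc0
  have hkco : w.ord (((k + 1 : ℕ) : L) * c) = 0 := by
    rw [w.map_mul _ _ hk.1 hc0, hco, add_zero]
    exact hk.2
  have hpos : w.Pos (π * pd 0 c) := by
    rw [mul_comm]
    exact w.pos_mul_left (hpres 0 c (Or.inr hco.ge)) (Or.inr (by omega))
  have hs : π * pd 0 c + ((k + 1 : ℕ) : L) * c ≠ 0 ∧
      w.ord (π * pd 0 c + ((k + 1 : ℕ) : L) * c) = 0 := by
    have hnp : ¬ w.Pos (π * pd 0 c + ((k + 1 : ℕ) : L) * c) := by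
      intro h1
      have h2 : w.Pos (((k + 1 : ℕ) : L) * c) := by
        have h3 : ((k + 1 : ℕ) : L) * c = (π * pd 0 c + ((k + 1 : ℕ) : L) * c) - π * pd 0 c := by
          ring
        rw [h3]
        exact pos_sub h1 hpos
      exact not_pos hkc hkco h2
    have hr : w.Reg (π * pd 0 c + ((k + 1 : ℕ) : L) * c) :=
      w.reg_add (reg_of_pos hpos) (Or.inr hkco.ge)
    have h0 : π * pd 0 c + ((k + 1 : ℕ) : L) * c ≠ 0 := fun h1 => hnp (Or.inl h1)
    refine ⟨h0, ?_⟩
    have h1 := w.ord_nonneg h0 hr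
    have h2 : ¬ 0 < w.ord (π * pd 0 c + ((k + 1 : ℕ) : L) * c) := fun h2 => hnp (Or.inr h2)
    omega
  have hMo : w.ord M.det = k ∧ M.det ≠ 0 := by
    rw [hMd, hpg]
    refine ⟨?_, mul_ne_zero (pow_ne_zero _ hπ0) hs.1⟩
    rw [w.map_mul _ _ (pow_ne_zero _ hπ0) hs.1, hs.2, w.ord_pow hπ0, hπ1]
    ring
  have h1 := h J.det hJ0
  rw [← hdet, w.map_mul _ _ hJ0' hMo.2, hMo.1] at h1
  have h2 : (((k + 1 : ℕ) : ℤ) * (-v.ord J.det + 1) - 1) = -w.ord J'.det := by
    push_cast at h1 ⊢
    linarith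
  rw [h2]
  exact hJc'

section trdeg

variable {K : Type} [Field K] [Algebra ℂ K]

/-- The dimension of the variety is the number of the basis vector fields. -/
theorem trdeg_of_top {d : ℕ} (T : Foliation K d) (hT : T.space = ⊤) :
    Algebra.trdeg ℂ K = ((d : ℕ) : Cardinal) := by
  classical
  have hchar : CharZero K := charZero_of_injective_algebraMap (algebraMap ℂ K).injective
  obtain ⟨ι, t, ht⟩ := exists_isTranscendenceBasis' ℂ K
  let Φ : Derivation ℂ K K →ₗ[K] (ι → K) :=
    { toFun := fun Δ i => Δ (t i)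
      map_add' := fun _ _ => rfl
      map_smul' := fun _ _ => rfl }
  have hinj : Function.Injective Φ := fun Δ Δ' h =>
    Pool.Agent.R351.der_ext ht fun i => congrFun h i
  have hsurj : Function.Surjective Φ := fun c => by
    obtain ⟨Δ, hΔ⟩ := Pool.Agent.R351.exists_der_values t ht.1 c
    exact ⟨Δ, funext hΔ⟩
  let b : Module.Basis (Fin d) K (Derivation ℂ K K) := Module.Basis.mk T.indep (by
    rw [← hT]
    exact le_rfl)
  have hfin : Module.Finite K (Derivation ℂ K K) := Module.Finite.of_basis b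
  let e := LinearEquiv.ofBijective Φ ⟨hinj, hsurj⟩
  have hfin' : Module.Finite K (ι → K) := Module.Finite.equiv e
  have hι : Finite ι := by
    by_contra hcon
    have hinf : Infinite ι := not_finite_iff_infinite.1 hcon
    have h1 : LinearIndependent K (fun i : ι => (Pi.single i 1 : ι → K)) :=
      Pi.linearIndependent_single_one ι K
    exact hcon h1.finite
  have hft : Fintype ι := Fintype.ofFinite ι
  have h1 := e.finrank_eq
  rw [Module.finrank_eq_card_basis b, Fintype.card_fin, Module.finrank_fintype_fun_eq_card] at h1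
  rw [← ht.cardinalMk_eq_trdeg, Cardinal.mk_fintype, ← h1]

/-- a field of transcendence degree zero has no divisors -/
theorem no_dval (h : Algebra.trdeg ℂ K = ((0 : ℕ) : Cardinal)) (v : DVal K) : False := by
  have h1 : Algebra.IsAlgebraic ℂ K := by
    rw [← trdeg_eq_zero_iff]
    exact_mod_cast h
  obtain ⟨f, hf, hf1⟩ := v.surj
  have h2 : Function.Surjective (algebraMap ℂ K) :=
    (IsAlgClosed.algebraMap_bijective_of_isIntegral (k := ℂ) (K := K)).2
  obtain ⟨c, rfl⟩ := h2 f
  have hc : c ≠ 0 := by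
    rintro rfl
    exact hf (map_zero _)
  rw [v.const c hc] at hf1
  omega

end trdeg

/-- Riemann–Hurwitz in any dimension. -/
theorem can_cover' {d : ℕ} [Algebra.IsAlgebraic F L] {X : NormalAffine F} {Y : NormalAffine L}
    {T : Foliation F d} (hTop : T.space = ⊤) {T' : Foliation L d}
    (hT : ∀ i f, T'.D i (algebraMap F L f) = algebraMap F L (T.D i f)) {w : DVal L} {v : DVal F}
    {e : ℕ} (he : 0 < e) (h : ∀ f : F, f ≠ 0 → w.ord (algebraMap F L f) = e * v.ord f)
    (hv : IsDivisorOver X v) (hw : IsDivisorOver Y w) :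
    ∃ n : ℤ, IsCanOrd T v n ∧ IsCanOrd T' w (e * (n + 1) - 1) := by
  have htr := trdeg_of_top T hTop
  cases d with
  | zero => exact (no_dval htr v).elim
  | succ m => exact can_cover htr hT he h hv hw

/-- Divisors above and below divisors, in any dimension. -/
theorem divisor_above' {d : ℕ} [Algebra.IsAlgebraic F L] {X : NormalAffine F}
    {Z : NormalAffine L} (htr : Algebra.trdeg ℂ F = ((d : ℕ) : Cardinal)) {w : DVal L}
    {v : DVal F} {e : ℕ} (he : 0 < e)
    (h : ∀ f : F, f ≠ 0 → w.ord (algebraMap F L f) = e * v.ord f) (hw : ∀ f ∈ Z.R, w.Reg f)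
    (hv : IsDivisorOver X v) : IsDivisorOver Z w := by
  cases d with
  | zero => exact (no_dval htr v).elim
  | succ m => exact divisor_above htr he h hw hv

theorem divisor_below' {d : ℕ} [Algebra.IsAlgebraic F L] {X : NormalAffine F}
    {Z : NormalAffine L} (htr : Algebra.trdeg ℂ F = ((d : ℕ) : Cardinal)) {w : DVal L}
    {v : DVal F} {e : ℕ} (he : 0 < e)
    (h : ∀ f : F, f ≠ 0 → w.ord (algebraMap F L f) = e * v.ord f) (hv : ∀ f ∈ X.R, v.Reg f)
    (hw : IsDivisorOver Z w) : IsDivisorOver X v := by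
  cases d with
  | zero => exact (no_dval htr v).elim
  | succ m => exact divisor_below htr he h hv hw

end Pool.Agent.W2helper37.GQ
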