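import Mathlib
import Pool.Agent.W2helper37.GQ.Can
import Pool.Agent.Q47.TV.EtAcc
import Pool.Agent.W2helper37.GQ.Defs

/-!
# Quotients of normal affine varieties by finite groups
-/

set_option autoImplicit false
set_option linter.unusedSectionVars false

namespace Pool.Agent.W2helper37.GQ

open Pool.Agent.H436R3.Fol Pool.Agent.H436R3.KT Pool.Agent.W497.Mld Pool.Agent.TH969.C8_EXT
  Q47.QM Q47.TV

variable {F L : Type} [Field F] [Algebra ℂ F] [Field L] [Algebra ℂ L] [Algebra F L]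
  [IsScalarTower ℂ F L] {Z : AffVar F} (C : Cover Z L)

/-- the normal varieties -/
def Cover.XN : NormalAffine L := ⟨C.R, C.fg, C.frac, C.normal⟩

include C in
theorem Cover.normalZ (f : F) (hf : IsIntegral Z.R f) : f ∈ Z.R := by
  rw [C.inv]
  apply C.normal
  obtain ⟨q, hq, hq0⟩ := hf
  let φ : Z.R →+* C.R := C.inc.toRingHom
  refine ⟨q.map φ, hq.map φ, ?_⟩
  rw [Polynomial.eval₂_map]
  have h1 := congrArg (algebraMap F L) hq0
  rw [map_zero, Polynomial.hom_eval₂] at h1
  exact h1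

def Cover.ZN : NormalAffine F := ⟨Z.R, Z.fg, Z.frac, C.normalZ⟩

section fibres

variable {C}

theorem Cover.reg_R {x : Pt C.X} {w : DVal L} (hw : IsOverGerm x w) {f : L} (hf : f ∈ C.R) :
    w.Reg f := by
  obtain ⟨⟨S, -, hRS, hSv⟩, -⟩ := hw
  exact hSv.1 _ (hRS hf)

theorem Cover.trdeg (_ : Cover Z L) : Algebra.trdeg ℂ F = ((Z.d : ℕ) : Cardinal) :=
  trdeg_of_top Z.T Z.top

/-- Restriction of divisors over `x`. -/
theorem Cover.restrict [Algebra.IsAlgebraic F L] {x : Pt C.X} {w : DVal L}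
    (hw : IsOverGerm x w) : ∃ (v : DVal F) (e : ℕ), 0 < e ∧
      (∀ f : F, f ≠ 0 → w.ord (algebraMap F L f) = e * v.ord f) ∧ IsOverGerm (C.im x) v := by
  obtain ⟨v, e, he, h⟩ := exists_restrict (F := F) w
  have hreg : ∀ f ∈ C.ZN.R, v.Reg f := fun f hf =>
    (Pool.Agent.Helper81_gap.above_reg he h f).1 (C.reg_R hw ((C.inv f).1 hf))
  have hdw : IsDivisorOver C.XN w := hw.1
  have hdv : IsDivisorOver C.ZN v := divisor_below' C.trdeg he h hreg hdw
  refine ⟨v, e, he, h, hdv, fun f => ?_⟩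
  rw [← Pool.Agent.Helper81_gap.above_pos he h]
  exact hw.2 (C.inc f)

/-- The Galois group acts on the coordinate ring. -/
@[instance_reducible] def Cover.act (C : Cover Z L) : MulSemiringAction (L ≃ₐ[F] L) C.R where
  smul σ f := ⟨σ f, C.stab σ f f.2⟩
  one_smul _ := rfl
  mul_smul _ _ _ := rfl
  smul_zero σ := Subtype.ext (map_zero σ)
  smul_add σ _ _ := Subtype.ext (map_add σ _ _)
  smul_one σ := Subtype.ext (map_one σ)
  smul_mul σ _ _ := Subtype.ext (map_mul σ _ _)

/-- Transitivity on the fibre. -/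
theorem Cover.exists_conj [FiniteDimensional F L] [IsGalois F L] (x : Pt C.X) {w : DVal L}
    (hreg : ∀ f ∈ C.R, w.Reg f)
    (hz : ∀ f : Z.R, w.Pos (algebraMap F L (f : F)) ↔ C.im x f = 0) :
    ∃ σ : L ≃ₐ[F] L, ∀ f : C.X.R, w.Pos (f : L) ↔ x ⟨σ (f : L), C.stab σ f f.2⟩ = 0 := by
  let _ : MulSemiringAction (L ≃ₐ[F] L) C.R := C.act
  let _ : Algebra Z.R C.R := C.inc.toRingHom.toAlgebra
  have hsc : SMulCommClass (L ≃ₐ[F] L) Z.R C.R := ⟨fun σ a b => by
    apply Subtype.ext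
    change σ (algebraMap F L (a : F) * (b : L)) = algebraMap F L (a : F) * σ (b : L)
    rw [map_mul, AlgEquiv.commutes]⟩
  have hinv : Algebra.IsInvariant Z.R C.R (L ≃ₐ[F] L) := ⟨fun b hb => by
    have h1 : ∀ σ : L ≃ₐ[F] L, σ (b : L) = b := fun σ => congrArg Subtype.val (hb σ)
    obtain ⟨a, ha⟩ := (IsGalois.mem_range_algebraMap_iff_fixed (F := F) (E := L) (b : L)).2 h1
    exact ⟨⟨a, (C.inv a).2 (by rw [ha]; exact b.2)⟩, Subtype.ext ha⟩⟩
  let P : Ideal C.R := RingHom.ker (x : C.X.R →ₐ[ℂ] ℂ).toRingHom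
  have hP : P.IsPrime := RingHom.ker_isPrime _
  let Q : Ideal C.R :=
    { carrier := {b | w.Pos (b : L)}
      add_mem' := fun ha hb => w.pos_add ha hb
      zero_mem' := Or.inl rfl
      smul_mem' := fun c b hb => w.pos_mul_left (hreg c c.2) hb }
  have hQmem : ∀ b : C.R, b ∈ Q ↔ w.Pos (b : L) := fun _ => Iff.rfl
  have hQ : Q.IsPrime := by
    refine ⟨fun h1 => ?_, fun {a b} hab => pos_of_mul (hreg a a.2) (hreg b b.2) hab⟩
    have h2 : (1 : C.R) ∈ Q := by rw [h1]; trivial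
    rw [hQmem] at h2
    exact not_pos one_ne_zero w.ord_one h2
  have hPQ : P.under Z.R = Q.under Z.R := by
    ext f
    exact (hz f).symm
  obtain ⟨σ, hσ⟩ := Algebra.IsInvariant.exists_smul_of_under_eq Z.R C.R (L ≃ₐ[F] L) P Q hPQ
  refine ⟨σ⁻¹, fun f => ?_⟩
  have h1 : ∀ f : C.R, f ∈ Q ↔ σ⁻¹ • f ∈ P := fun f => by
    rw [hσ]
    exact Ideal.mem_pointwise_smul_iff_inv_smul_mem
  exact h1 f

/-- Divisors over `x` above divisors over the image of `x`. -/
theorem Cover.lift [FiniteDimensional F L] [IsGalois F L] (x : Pt C.X) {v : DVal F}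
    (hv : IsOverGerm (C.im x) v) : ∃ (w : DVal L) (e : ℕ), 0 < e ∧
      (∀ f : F, f ≠ 0 → w.ord (algebraMap F L f) = e * v.ord f) ∧ IsOverGerm x w := by
  classical
  obtain ⟨w, e, he, h⟩ := exists_ext (Ω := L) v
  have hZ : ∀ f ∈ Z.R, v.Reg f := by
    obtain ⟨⟨S, -, hRS, hSv⟩, -⟩ := hv
    exact fun f hf => hSv.1 _ (hRS hf)
  have hreg : ∀ f ∈ C.R, w.Reg f := by
    intro f hf
    have h1 : IsIntegral w.O f := by
      let q : Polynomial L := ∏ σ : L ≃ₐ[F] L, (Polynomial.X - Polynomial.C (σ f))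
      have hq : q.Monic := Polynomial.monic_prod_of_monic _ _ fun σ _ => Polynomial.monic_X_sub_C _
      have hcoef : ∀ k, w.Reg (q.coeff k) := by
        intro k
        have hfix : ∀ σ : L ≃ₐ[F] L, σ (q.coeff k) = q.coeff k := by
          intro σ
          have h2 : q.map (σ : L →+* L) = q := by
            rw [Polynomial.map_prod]
            simp only [Polynomial.map_sub, Polynomial.map_X, Polynomial.map_C]
            exact Fintype.prod_equiv (Equiv.mulLeft σ) _ _ fun τ => rfl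
          conv_rhs => rw [← h2]
          rw [Polynomial.coeff_map]
          rfl
        have hmem : q.coeff k ∈ C.R := by
          have h3 : q ∈ Polynomial.lifts (C.R.val : C.R →+* L) := by
            refine Subsemiring.prod_mem _ fun σ _ => ?_
            refine Subring.sub_mem (Polynomial.liftsRing _) ?_ ?_
            · exact Polynomial.X_mem_lifts _
            · exact Polynomial.C_mem_lifts (C.R.val : C.R →+* L) ⟨σ f, C.stab σ f hf⟩
          rw [Polynomial.lifts_iff_coeff_lifts] at h3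
          obtain ⟨y, hy⟩ := h3 k
          rw [← hy]
          exact y.2
        obtain ⟨a, ha⟩ := (IsGalois.mem_range_algebraMap_iff_fixed (F := F) (E := L) _).2 hfix
        rw [← ha]
        exact (Pool.Agent.Helper81_gap.above_reg he h a).2 (hZ a ((C.inv a).2 (by rwa [ha])))
      have hsub : (↑q.coeffs : Set L) ⊆ (w.O : Set L) := by
        intro c hc
        obtain ⟨k, -, rfl⟩ := Polynomial.mem_coeffs_iff.1 hc
        exact hcoef k
      refine ⟨q.toSubring w.O hsub, (Polynomial.monic_toSubring _ _ _).2 hq, ?_⟩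
      have h4 : Polynomial.eval₂ (algebraMap w.O L) f (q.toSubring w.O hsub) =
          Polynomial.eval f ((q.toSubring w.O hsub).map w.O.subtype) :=
        (Polynomial.eval_map _ _).symm
      rw [h4, Polynomial.map_toSubring, Polynomial.eval_prod]
      refine Finset.prod_eq_zero (Finset.mem_univ (1 : L ≃ₐ[F] L)) ?_
      rw [Polynomial.eval_sub, Polynomial.eval_X, Polynomial.eval_C, AlgEquiv.one_apply, sub_self]
    have hdw : IsDiscreteValuationRing w.O := dvr w
    have hfw : IsFractionRing w.O L := Pool.Agent.TH969.C8_EXT.frac w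
    obtain ⟨y, hy⟩ := (IsIntegrallyClosed.isIntegral_iff (R := w.O) (K := L)).1 h1
    rw [← hy]
    exact y.2
  obtain ⟨σ, hσ⟩ := C.exists_conj x hreg fun f => by
    rw [Pool.Agent.Helper81_gap.above_pos he h]
    exact hv.2 f
  let τ : L ≃ₐ[ℂ] L := (σ⁻¹).restrictScalars ℂ
  have hord : ∀ f : L, (tw w τ).ord f = w.ord (σ⁻¹ f) := fun f => rfl
  have hτF : ∀ f : F, f ≠ 0 → (tw w τ).ord (algebraMap F L f) = e * v.ord f := by
    intro f hf
    rw [hord, AlgEquiv.commutes, h f hf]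
  have hτreg : ∀ f ∈ C.XN.R, (tw w τ).Reg f := by
    intro f hf
    rw [tw_reg]
    exact hreg _ (C.stab σ⁻¹ f hf)
  have hdv : IsDivisorOver C.ZN v := hv.1
  have hdw : IsDivisorOver C.XN (tw w τ) := divisor_above' C.trdeg he hτF hτreg hdv
  refine ⟨tw w τ, e, he, hτF, hdw, fun f => ?_⟩
  rw [tw_pos]
  have h1 := hσ ⟨σ⁻¹ f, C.stab σ⁻¹ f f.2⟩
  have h2 : (⟨σ (σ⁻¹ (f : L)), C.stab σ _ (C.stab σ⁻¹ f f.2)⟩ : C.X.R) = f :=
    Subtype.ext (σ.apply_symm_apply _)
  rw [h2] at h1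
  exact h1

end fibres

end Pool.Agent.W2helper37.GQ
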