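import Mathlib
import Pool.Agent.W2helper37.GQ.Cover

/-!
# The minimal log discrepancy of a quotient
-/

set_option autoImplicit false
set_option linter.unusedSectionVars false

namespace Pool.Agent.W2helper37.GQ

open Pool.Agent.H436R3.Fol Pool.Agent.H436R3.KT Pool.Agent.W497.Mld Pool.Agent.TH969.C8_EXT
  Q47.QM Q47.TV

variable {F L : Type} [Field F] [Algebra ℂ F] [Field L] [Algebra ℂ L] [Algebra F L]
  [IsScalarTower ℂ F L] {Z : AffVar F} {C : Cover Z L}

theorem can_unique {K : Type} [Field K] [Algebra ℂ K] {r : ℕ} {T : Foliation K r} {v : DVal K}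
    {m n : ℤ} (hm : IsCanOrd T v m) (hn : IsCanOrd T v n) : m = n := IsLeast.unique hm hn

/-- The order of the inertia group in the stabiliser is the ramification index. -/
theorem Cover.card_eq [FiniteDimensional F L] [IsGalois F L] {x : Pt C.X} {w : DVal L}
    (hw : IsOverGerm x w) {v : DVal F} {e : ℕ} (he : 0 < e)
    (h : ∀ f : F, f ≠ 0 → w.ord (algebraMap F L f) = e * v.ord f) :
    Nat.card {σ : C.St x // ∀ f, w.Reg f → w.Pos ((σ : L ≃ₐ[ℂ] L) f - f)} = e := by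
  rw [← ram_eq w v e he h]
  refine Nat.card_congr
    { toFun := fun σ => ⟨AlgEquiv.ofRingEquiv (f := (σ.1.1 : L ≃ₐ[ℂ] L).toRingEquiv) σ.1.2.1,
        σ.2⟩
      invFun := fun σ => ⟨⟨σ.1.restrictScalars ℂ, fun f => σ.1.commutes f,
        fixesPt_of_InI hw σ.2⟩, σ.2⟩
      left_inv := fun σ => rfl
      right_inv := fun σ => rfl }

/-- The log discrepancies of a divisor below and above. -/
theorem Cover.disc [FiniteDimensional F L] {x : Pt C.X} {BX : EffDiv C.X} {eX : LocEq BX x}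
    {BZ : EffDiv Z} {eZ : LocEq BZ (C.im x)} (hp : C.IsPull eX eZ) {w : DVal L}
    (hw : IsOverGerm x w) {v : DVal F} (hv : IsOverGerm (C.im x) v) {e : ℕ} (he : 0 < e)
    (h : ∀ f : F, f ≠ 0 → w.ord (algebraMap F L f) = e * v.ord f) (a : ℝ) :
    IsLogDisc eZ v a ↔ IsLogDisc eX w (e * a) := by
  have he' : (e : ℝ) ≠ 0 := by exact_mod_cast he.ne'
  have hdw : IsDivisorOver C.XN w := hw.1
  have hdv : IsDivisorOver C.ZN v := hv.1
  obtain ⟨n, hn, hn'⟩ := can_cover' (T := Z.T) Z.top (T' := C.T) C.ext he h hdv hdw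
  have hsum : ∑ i, eX.ρ i * (w.ord (eX.g i) : ℝ) = e * ∑ i, eZ.ρ i * (v.ord (eZ.g i) : ℝ) := by
    rw [hp w hw, Finset.mul_sum]
    refine Finset.sum_congr rfl fun i _ => ?_
    rw [h _ (eZ.ne i)]
    push_cast
    ring
  have hcast : (((e : ℤ) * (n + 1) - 1 : ℤ) : ℝ) = (e : ℝ) * ((n : ℝ) + 1) - 1 := by push_cast; ring
  constructor
  · rintro ⟨k, hk, ha⟩
    have hkn : k = n := can_unique hk hn
    refine ⟨_, hn', ?_⟩
    rw [ha, hsum, hcast, hkn]
    ring
  · rintro ⟨k, hk, ha⟩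
    have hkn : k = (e : ℤ) * (n + 1) - 1 := can_unique hk hn'
    refine ⟨n, hn, ?_⟩
    rw [hsum, hkn, hcast] at ha
    apply mul_left_cancel₀ he'
    rw [ha]
    ring

/-- **The minimal log discrepancy of a quotient** is the least value of `a (E, X, B) / r_E`, where `r_E`
is the order of the inertia group. -/
theorem Cover.mld_iff [FiniteDimensional F L] [IsGalois F L] {x : Pt C.X} {BX : EffDiv C.X}
    {eX : LocEq BX x} {BZ : EffDiv Z} {eZ : LocEq BZ (C.im x)} (hp : C.IsPull eX eZ) (m : ℝ) :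
    IsMld eZ m ↔ IsQuotMldX (X := C.X) eX (C.St x) m := by
  have key : {a | ∃ v, IsOverGerm (C.im x) v ∧ IsLogDisc eZ v a} =
      {a | ∃ (v : DVal L) (b : ℝ), IsOverGerm x v ∧ IsLogDisc eX v b ∧
        a = b / Nat.card {σ : C.St x // ∀ f, v.Reg f → v.Pos ((σ : L ≃ₐ[ℂ] L) f - f)}} := by
    ext a
    constructor
    · rintro ⟨v, hv, ha⟩
      obtain ⟨w, e, he, h, hw⟩ := C.lift x hv
      refine ⟨w, e * a, hw, (C.disc hp hw hv he h a).1 ha, ?_⟩
      rw [C.card_eq hw he h]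
      have he' : (e : ℝ) ≠ 0 := by exact_mod_cast he.ne'
      field_simp
    · rintro ⟨w, b, hw, hb, rfl⟩
      obtain ⟨v, e, he, h, hv⟩ := C.restrict hw
      refine ⟨v, hv, ?_⟩
      rw [C.card_eq hw he h, C.disc hp hw hv he h]
      have he' : (e : ℝ) ≠ 0 := by exact_mod_cast he.ne'
      rwa [mul_div_cancel₀ _ he']
  unfold IsMld IsQuotMldX
  rw [key]

/-- The elements of the stabiliser preserve the divisors over `x` and their log discrepancies. -/
theorem Cover.germAut [FiniteDimensional F L] [IsGalois F L] {x : Pt C.X} {BX : EffDiv C.X}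
    {eX : LocEq BX x} {BZ : EffDiv Z} {eZ : LocEq BZ (C.im x)} (hp : C.IsPull eX eZ)
    {σ : L ≃ₐ[ℂ] L} (hσ : σ ∈ C.St x) : IsGermAut (X := C.X) eX σ := by
  have hU : ∀ τ ∈ C.St x, ∀ f, f ∈ C.X.R → τ f ∈ C.X.R := by
    rintro τ ⟨h1, h2⟩ f hf
    exact C.stab (AlgEquiv.ofRingEquiv (f := τ.toRingEquiv) h1) f hf
  have key : ∀ τ ∈ C.St x, ∀ (v : DVal L) (b : ℝ), IsOverGerm x v ∧ IsLogDisc eX v b →
      IsOverGerm x (tw v τ) ∧ IsLogDisc eX (tw v τ) b := by
    rintro τ hτ v b ⟨hv, hb⟩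
    have hov : IsOverGerm x (tw v τ) := over_tw (fun f => ⟨fun hf => by
      have h1 := hU _ (inv_mem hτ) _ hf
      have h2 : τ⁻¹ (τ f) = f := τ.symm_apply_apply f
      rwa [h2] at h1, hU τ hτ f⟩) hτ.2 hv
    refine ⟨hov, ?_⟩
    obtain ⟨v0, e, he, h, hv0⟩ := C.restrict hv
    have h' : ∀ f : F, f ≠ 0 → (tw v τ).ord (algebraMap F L f) = e * v0.ord f := by
      intro f hf
      change v.ord (τ (algebraMap F L f)) = _
      rw [hτ.1, h f hf]
    have he' : (e : ℝ) ≠ 0 := by exact_mod_cast he.ne'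
    have h1 := (C.disc hp hv hv0 he h (b / e)).2 (by rwa [mul_div_cancel₀ _ he'])
    have h2 := (C.disc hp hov hv0 he h' (b / e)).1 h1
    rwa [mul_div_cancel₀ _ he'] at h2
  intro v b
  refine ⟨key σ hσ v b, fun h => ?_⟩
  have h1 := key σ⁻¹ (inv_mem hσ) _ _ h
  rwa [tw_tw, mul_inv_cancel, tw_one] at h1

end Pool.Agent.W2helper37.GQ
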