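import Mathlib
import Pool.Agent.W2helper37.GQ.Formula
import Pool.Agent.W2helper37.GQ.Etl

/-!
# Étale toric charts
-/

set_option autoImplicit false
set_option linter.unusedSectionVars false

namespace Pool.Agent.W2helper37.GQ

open Pool.Agent.H436R3.Fol Pool.Agent.H436R3.KT Pool.Agent.W497.Mld Pool.Agent.TH165.ACC
  Q47.QM Q47.TV
open Pool.Agent.Helper58K9.ET (Etale OverPt dens frac up down)

section rigid

variable {L Ω : Type} [Field L] [Field Ω] [Algebra ℂ L] [Algebra ℂ Ω] [Algebra L Ω]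
  [IsScalarTower ℂ L Ω]

/-- approximation by functions on `X` -/
theorem exists_approx {w : DVal Ω}
    (hd : ∀ f : Ω, f ≠ 0 → ∃ g : L, g ≠ 0 ∧ w.Pos (f / algebraMap L Ω g - 1)) (f : Ω) (k : ℕ) :
    ∃ a : L, f = algebraMap L Ω a ∨ w.ord f + k ≤ w.ord (f - algebraMap L Ω a) := by
  induction k with
  | zero => exact ⟨0, Or.inr (by rw [map_zero, sub_zero]; simp)⟩
  | succ k ih =>
    obtain ⟨a, ha | ha⟩ := ih
    · exact ⟨a, Or.inl ha⟩
    by_cases h0 : f - algebraMap L Ω a = 0
    · exact ⟨a, Or.inl (sub_eq_zero.1 h0)⟩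
    obtain ⟨g, hg0, hg⟩ := hd _ h0
    have hgΩ : algebraMap L Ω g ≠ 0 := (map_ne_zero _).2 hg0
    obtain ⟨h1, h2⟩ := Pool.Agent.Helper58K9.ET.DensL.one_pos_ne w hg
    rw [w.ord_div h0 hgΩ] at h2
    refine ⟨a + g, ?_⟩
    have h4 : f - algebraMap L Ω (a + g) =
        algebraMap L Ω g * ((f - algebraMap L Ω a) / algebraMap L Ω g - 1) := by
      rw [map_add]
      field_simp
      ring
    by_cases h5 : (f - algebraMap L Ω a) / algebraMap L Ω g - 1 = 0
    · left
      rw [h5, mul_zero] at h4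
      exact sub_eq_zero.1 h4
    · right
      have h6 := hg.resolve_left h5
      rw [h4, w.map_mul _ _ hgΩ h5]
      push_cast
      omega

/-- an automorphism of an étale variety over `X` which fixes a point is trivial -/
theorem rigid {X : AffVar L} {U : AffVar Ω} (h : Etale X U.R) {u : Pt U} {ρ : Ω ≃ₐ[ℂ] Ω}
    (hU : ∀ f, ρ f ∈ U.R ↔ f ∈ U.R) (hu : FixesPt u ρ)
    (hL : ∀ f : L, ρ (algebraMap L Ω f) = algebraMap L Ω f) {w : DVal Ω} (hw : IsOverGerm u w) :
    ρ = 1 := by
  obtain ⟨v, hv, hwv⟩ := down dens frac h u w hw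
  have hw' : IsOverGerm u (tw w ρ) := over_tw hU hu hw
  have hwv' : ∀ f : L, f ≠ 0 → (tw w ρ).ord (algebraMap L Ω f) = v.ord f := by
    intro f hf
    change w.ord (ρ (algebraMap L Ω f)) = _
    rw [hL, hwv f hf]
  have hord : ∀ f : Ω, f ≠ 0 → w.ord f = w.ord (ρ f) := fun f hf =>
    ord_eq_of_reg (w := tw w ρ) (fun g hg => etale_uniq h hw hw' hwv hwv' hg) hf
  apply AlgEquiv.ext
  intro f
  rw [AlgEquiv.one_apply]
  by_contra hne
  have hg0 : ρ f - f ≠ 0 := sub_ne_zero.2 hne
  have hf0 : f ≠ 0 := by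
    rintro rfl
    exact hne (map_zero _)
  obtain ⟨a, ha⟩ := exists_approx (w := w) (L := L) (dens h u w hw.2 (over_reg hw)) f
    (w.ord (ρ f - f) - w.ord f + 1).toNat
  rcases ha with ha | ha
  · rw [ha, hL] at hne
    exact hne rfl
  have h1 : ρ f - f = ρ (f - algebraMap L Ω a) - (f - algebraMap L Ω a) := by
    rw [map_sub, hL]
    ring
  have h2 : f - algebraMap L Ω a ≠ 0 := by
    intro h2
    rw [sub_eq_zero.1 h2, hL] at hne
    exact hne rfl
  have h3 : ρ (f - algebraMap L Ω a) ≠ 0 := sne ρ h2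
  have h4 : w.ord (f - algebraMap L Ω a) ≤ w.ord (ρ f - f) := by
    have h5 := w.map_add _ _ h3 (neg_ne_zero.2 h2) (by rw [← sub_eq_add_neg, ← h1]; exact hg0)
    rw [← sub_eq_add_neg, ← h1, w.ord_neg h2, ← hord _ h2, min_self] at h5
    exact h5
  omega

end rigid

variable {n : ℕ} {K : Type} [Field K] [Algebra ℂ K]
  [Algebra (MvPolynomial (Fin n) ℂ) K] [IsFractionRing (MvPolynomial (Fin n) ℂ) K]
  [IsScalarTower ℂ (MvPolynomial (Fin n) ℂ) K] {Γ : Set ℝ} {L : Type} [Field L] [Algebra ℂ L]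

theorem EtChart.germ {X : AffVar L} {B : EffDiv X} {x : Pt X} {e : LocEq B x} {σ : L ≃ₐ[ℂ] L}
    (C : EtChart n K Γ e σ) {v : DVal L} (hv : IsOverGerm x v) :
    Nonempty (EtGerm n K Γ e σ) := by
  have hX := isEtale_of C.etX C.u
  have hY := isEtale_of C.etY C.u
  rw [C.ux] at hX
  rw [C.uy] at hY
  obtain ⟨w, hw, -⟩ := hX.lift v hv
  have hcX' : ∀ f : L, C.ρ (IsScalarTower.toAlgHom ℂ L C.Ω f) =
      IsScalarTower.toAlgHom ℂ L C.Ω (σ f) := fun f => C.comX f
  have hcY : ∀ f : K, C.ρ (IsScalarTower.toAlgHom ℂ K C.Ω f) =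
      IsScalarTower.toAlgHom ℂ K C.Ω (C.τ f) := fun f => C.comY f
  exact ⟨
    { g := C.g
      B' := C.B'
      coef := C.coef
      htor := C.htor
      y := C.y
      e' := C.e'
      τ := C.τ
      aut := C.aut
      mono := C.mono
      ord := fun N hN => by
        have h1 : C.ρ ^ N = 1 := by
          refine rigid C.etX (aut_pow C.autU N) (fix_pow C.autU C.fixU N) (fun f => ?_) hw
          have h2 := com_pow hcX' N f
          rw [hN] at h2
          exact h2
        apply AlgEquiv.ext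
        intro f
        have h2 := com_pow hcY N f
        rw [h1] at h2
        exact ((algebraMap K C.Ω).injective h2).symm
      Ω := C.Ω
      U := C.U
      ρ := C.ρ
      autU := C.autU
      i := IsScalarTower.toAlgHom ℂ L C.Ω
      j := IsScalarTower.toAlgHom ℂ K C.Ω
      comX := hcX'
      comY := hcY
      u := C.u
      fixU := C.fixU
      etX := hX
      etY := hY
      disc := fun w v v' hw h1 h2 b => C.disc w v v' hw (fun f _ => (h1 f).symm)
        (fun f _ => (h2 f).symm) b }⟩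

end Pool.Agent.W2helper37.GQ
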