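import Mathlib
import Pool.Agent.W2helper37.GQ.Chart

/-!
# The ascending chain condition for quotients, étale locally
-/

set_option autoImplicit false
set_option linter.unusedSectionVars false

namespace Pool.Agent.W2helper37.GQ

open Pool.Agent.H436R3.Fol Pool.Agent.H436R3.KT Pool.Agent.W497.Mld Pool.Agent.TH165.ACC
  Q47.QM Q47.TV
open Pool.Agent.Helper58K9.ET (Etale OverPt dens frac up down)

/-- Minimal log discrepancies do not change under étale morphisms. -/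
theorem mld_etale {M F : Type} [Field M] [Algebra ℂ M] [Field F] [Algebra ℂ F] [Algebra M F]
    [IsScalarTower ℂ M F] {Y : AffVar M} {Z : AffVar F} (h : Etale Y Z.R) {z : Pt Z}
    {BY : EffDiv Y} {eY : LocEq BY (h.im z)} {BZ : EffDiv Z} {eZ : LocEq BZ z}
    (hd : ∀ (v : DVal F) (v' : DVal M), IsOverGerm z v →
      (∀ f : M, f ≠ 0 → v.ord (algebraMap M F f) = v'.ord f) →
      ∀ b, IsLogDisc eZ v b ↔ IsLogDisc eY v' b) (m : ℝ) : Pool.Agent.W497.Mld.IsMld eY m ↔ Pool.Agent.W497.Mld.IsMld eZ m := by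
  have key : {a | ∃ v, IsOverGerm (h.im z) v ∧ IsLogDisc eY v a} =
      {a | ∃ v, IsOverGerm z v ∧ IsLogDisc eZ v a} := by
    ext a
    constructor
    · rintro ⟨v', hv', ha⟩
      obtain ⟨v, hv, hvv⟩ := up h z v' hv'
      exact ⟨v, hv, (hd v v' hv hvv a).2 ha⟩
    · rintro ⟨v, hv, ha⟩
      obtain ⟨v', hv', hvv⟩ := down dens frac h z v hv
      exact ⟨v', hv', (hd v v' hv hvv a).1 ha⟩
  unfold Pool.Agent.W497.Mld.IsMld
  rw [key]

theorem finite_St {F L : Type} [Field F] [Algebra ℂ F] [Field L] [Algebra ℂ L] [Algebra F L]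
    [IsScalarTower ℂ F L] [FiniteDimensional F L] {Z : AffVar F} {C : Cover Z L} (x : Pt C.X) :
    Finite (C.St x) := by
  let φ : C.St x → (L ≃ₐ[F] L) := fun σ =>
    AlgEquiv.ofRingEquiv (f := (σ.1 : L ≃ₐ[ℂ] L).toRingEquiv) σ.2.1
  refine Finite.of_injective φ fun σ τ h => ?_
  apply Subtype.ext
  apply AlgEquiv.ext
  intro f
  exact congrArg (fun ψ : L ≃ₐ[F] L => ψ f) h

/-- **The ascending chain condition** for quotients of toroidal pairs. -/
theorem acc_quot (n : ℕ) (Γ : Set ℝ) (hΓ : Pool.Agent.TH165.ACC.IsDCC Γ) :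
    IsACC (quotMlds n Γ) := by
  intro s hs hmem
  refine quot_acc_et (n := n) (K := FractionRing (MvPolynomial (Fin n) ℂ)) hΓ s hs fun k => ?_
  obtain ⟨h0, M, i1, i2, Y, BY, y, eY, hq, hm⟩ := hmem k
  obtain ⟨F, i3, i4, i5, i6, L, i7, i8, i9, i10, i11, i12, Z, h, C, x, BZ, eZ, BX, eX, hy, hd, hp,
    hch⟩ := hq
  subst hy
  have h1 : Pool.Agent.W497.Mld.IsMld eZ (s k) := (mld_etale h hd (s k)).1 hm
  have h2 : IsQuotMldX (X := C.X) eX (C.St x) (s k) := (C.mld_iff hp (s k)).1 h1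
  refine ⟨h0, L, i7, i8, C.X, BX, x, eX, C.St x, finite_St x, fun σ hσ => C.germAut hp hσ,
    fun σ hσ => ?_, h2⟩
  obtain ⟨ch⟩ := hch σ hσ
  obtain ⟨⟨v, b, hv, -⟩, -⟩ := h2
  exact ch.germ hv

end Pool.Agent.W2helper37.GQ
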