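import Mathlib
import Pool.Agent.W2helper37.GQ.Final
import Pool.Agent.R889.Toric
import Pool.Agent.Helper58K9.ET.Refl

/-!
# Toric pairs belong to the class
-/

set_option autoImplicit false
set_option linter.unusedSectionVars false

namespace Pool.Agent.W2helper37.GQ

open Pool.Agent.H436R3.Fol Pool.Agent.H436R3.KT Pool.Agent.W497.Mld Pool.Agent.TH165.ACC
  Q47.QM Q47.TV MvPolynomial
open Pool.Agent.Helper58K9.ET (Etale OverPt dens frac up down idEtale idEtale_im)

section toric

variable {n : ℕ} {K : Type} [Field K] [Algebra ℂ K]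
  [Algebra (MvPolynomial (Fin n) ℂ) K] [IsFractionRing (MvPolynomial (Fin n) ℂ) K]
  [IsScalarTower ℂ (MvPolynomial (Fin n) ℂ) K]

/-- affine toric varieties are normal -/
theorem torAff_normal (g : TorAff n K) : IsNormal g.X := by
  classical
  intro f hf
  by_cases hf0 : f = 0
  · rw [hf0]; exact zero_mem _
  have h1 : ∀ a ∈ g.X.R, ∃ N : ℕ, ∀ m, N ≤ m →
      (∏ i : Fin n, cv K i) ^ m * a ∈ RA (Fin n) K := by
    intro a ha
    rw [g.hR] at ha
    exact Pool.Agent.R889.laurent_clear ha
  obtain ⟨N, hN⟩ := Pool.Agent.H436R3.Can.integral_of_pow h1 (prod_mem fun i _ => cv_mem i) hf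
  obtain ⟨p, hp⟩ := RA_normal hN
  have hprod : (∏ i : Fin n, cv K i) ^ N = ym K (fun _ : Fin n => (N : ℤ)) := by
    rw [ym, ← Finset.prod_pow]
    exact Finset.prod_congr rfl fun i _ => by rw [zpow_natCast]
  have hfp : f = jo (Fin n) K p * ym K (-fun _ : Fin n => (N : ℤ)) := by
    change jo (Fin n) K p = _ at hp
    rw [hp, hprod, mul_comm (ym K _) f, mul_assoc, ym_mul_neg, mul_one]
  have hp0 : p ≠ 0 := by
    rintro rfl
    rw [map_zero, zero_mul] at hfp
    exact hf0 hfp
  rw [g.hR, hfp]
  apply jo_mul_mem_LA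
  intro s hs i
  obtain ⟨v, hv, htv⟩ := exists_mon (K := K) (g.prim i)
  have hreg : v.Reg f := by
    refine Pool.Agent.R889.reg_of_int v (fun a ha => ?_) hf
    exact (local_Hs hv).1 _ (TorAff.R_le (by rw [htv]; exact TorAff.inCone_E i) ha)
  have h2 := v.ord_nonneg hf0 hreg
  rw [hfp, v.map_mul _ _ (jo_ne hp0) (ym_ne _), ord_ym, htv] at h2
  have h3 := (hv p hp0).2 s hs
  rw [htv] at h3
  rw [pr_add]
  omega

end toric

theorem same_disc {M : Type} [Field M] [Algebra ℂ M] {Y : AffVar M} {B : EffDiv Y} {y : Pt Y}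
    (e : LocEq B y) {v w : DVal M} (h : SameDiv v w) (b : ℝ) (hb : IsLogDisc e v b) :
    IsLogDisc e w b := by
  obtain ⟨k, hk, hb⟩ := hb
  refine ⟨k, Pool.Agent.R889.isCanOrd_same h hk, ?_⟩
  rw [hb]
  congr 1
  exact Finset.sum_congr rfl fun i _ => by rw [h _ (e.ne i)]

/-- the trivial cover -/
def trivCover {M : Type} [Field M] [Algebra ℂ M] (Y : AffVar M) (hY : IsNormal Y) :
    Cover Y M where
  R := Y.R
  fg := Y.fg
  frac := Y.frac
  normal := hY
  stab := fun σ f hf => by
    have h1 : σ = 1 := AlgEquiv.ext fun f => σ.commutes f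
    rw [h1]
    exact hf
  inv := fun f => Iff.rfl
  T := Y.T
  top := Y.top
  ext := fun _ _ => rfl

/-- All toric pairs (at all closed points) belong to the class. -/
theorem toric_mem (n : ℕ) (Γ : Set ℝ)
    (g : TorAff n (FractionRing (MvPolynomial (Fin n) ℂ))) (B : EffDiv g.X) (hB : CoeffIn B Γ)
    (htor : ∀ v : DVal (FractionRing (MvPolynomial (Fin n) ℂ)),
      (∀ i : Fin n, v.ord (cv _ i) = 0) → B.mult v = 0)
    (y : Pt g.X) (e : LocEq B y) : IsToroidalQuotient n Γ e := by
  refine ⟨FractionRing (MvPolynomial (Fin n) ℂ), inferInstance, inferInstance, Algebra.id _,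
    inferInstance, FractionRing (MvPolynomial (Fin n) ℂ), inferInstance, inferInstance,
    Algebra.id _, inferInstance, inferInstance, inferInstance, g.X, idEtale g.X,
    trivCover g.X (torAff_normal g), y, B, e, B, e, rfl, ?_, fun w _ => rfl, ?_⟩
  · intro v v' hv hvv b
    exact ⟨same_disc e hvv b, same_disc e (same_symm hvv) b⟩
  · intro σ hσ
    have h1 : σ = 1 := AlgEquiv.ext fun f => hσ.1 f
    subst h1
    exact ⟨
      { g := g
        B' := B
        coef := hB
        htor := htor
        y := y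
        e' := e
        τ := 1
        aut := fun c => Iff.rfl
        mono := fun m => ⟨1, m, by rw [map_one, one_mul]; rfl⟩
        Ω := FractionRing (MvPolynomial (Fin n) ℂ)
        U := g.X
        etX := idEtale g.X
        etY := idEtale g.X
        u := y
        ux := rfl
        uy := rfl
        ρ := 1
        autU := fun f => Iff.rfl
        fixU := fun f f' h => by
          have : f = f' := Subtype.ext h.symm
          rw [this]
        comX := fun f => rfl
        comY := fun f => rfl
        disc := fun w v v' hw h2 h3 b => ⟨fun h => same_disc e h3 b (same_disc e (same_symm h2) b h),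
          fun h => same_disc e h2 b (same_disc e (same_symm h3) b h)⟩ }⟩

end Pool.Agent.W2helper37.GQ
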